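import Mathlib
import Pool.Agent.H.MP_106964_gt.U
set_option autoImplicit false
namespace Pool.Agent.Results.MP_106964_gt.No
open Set Filter Topology Cardinal AlgebraicTopology CategoryTheory
open scoped ContDiff RealInnerProductSpace

variable {V : Type} [NormedAddCommGroup V] [InnerProductSpace ℝ V]

def tang (A : Set V) (b : V) : Set V :=
  {v | ∃ c : ℝ → V, c 0 = b ∧ (∀ᶠ s in 𝓝 0, c s ∈ A) ∧ HasDerivAt c v 0}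

def IsGeo (N : Set V) (γ : ℝ → V) : Prop :=
  ContDiff ℝ ∞ γ ∧ ∀ t, γ t ∈ N ∧ ∀ v ∈ tang N (γ t), ⟪deriv (deriv γ) t, v⟫ = 0

def NormalGeo (N M : Set V) (γ : ℝ → V) : Prop :=
  IsGeo N γ ∧ γ 0 ∈ M ∧ ∀ v ∈ tang M (γ 0), ⟪deriv γ 0, v⟫ = 0

def Focal (N M : Set V) (p : V) : Prop :=
  ∃ (Γ : ℝ → ℝ → V) (w : V × V), (∀ s, NormalGeo N M (Γ s)) ∧ Γ 0 1 = p ∧ w ≠ 0 ∧
    HasDerivAt (fun s => (Γ s 0, deriv (Γ s) 0)) w 0 ∧ HasDerivAt (fun s => Γ s 1) 0 0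

noncomputable def energy (γ : ℝ → V) : ℝ := ∫ t in (0 : ℝ)..1, ‖deriv γ t‖ ^ 2

def IdxGe (N M : Set V) (p : V) (γ : ℝ → V) (k : ℕ) : Prop :=
  ∃ Γ : (Fin k → ℝ) → ℝ → V, ContDiff ℝ ∞ (fun q : (Fin k → ℝ) × ℝ => Γ q.1 q.2) ∧ Γ 0 = γ ∧
    (∀ s t, Γ s t ∈ N) ∧ (∀ s, Γ s 0 ∈ M ∧ Γ s 1 = p) ∧
    ∀ u ≠ 0, deriv (deriv fun r : ℝ => energy (Γ (r • u))) 0 < 0

def Crit (N M : Set V) (p : V) (k : ℕ) : Set (ℝ → V) :=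
  {γ | NormalGeo N M γ ∧ γ 1 = p ∧ IdxGe N M p γ k ∧ ¬ IdxGe N M p γ (k + 1)}

def PathSp (N M : Set V) (p : V) : Set C(unitInterval, V) :=
  {c | (∀ t, c t ∈ N) ∧ c 0 ∈ M ∧ c 1 = p}

noncomputable def betti (F : Type) [Field F] (k : ℕ) (X : Type) [TopologicalSpace X] : Cardinal :=
  Module.rank F (((singularHomologyFunctor (ModuleCat F) k).obj (ModuleCat.of F F)).obj
    (TopCat.of X))

def Taut (N M : Set V) : Prop :=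
  ∃ (F : Type) (_ : Field F), ∀ p ∈ N, ¬ Focal N M p →
    ∀ k, Cardinal.mk (Crit N M p k) = betti F k (PathSp N M p)

def N0 : Set (EuclideanSpace ℝ (Fin 6)) :=
  {x | x 0 ^ 2 + x 1 ^ 2 + x 2 ^ 2 = 1 ∧ x 3 ^ 2 + x 4 ^ 2 + x 5 ^ 2 = 1}

def N1 : Set (EuclideanSpace ℝ (Fin 6)) := {x | x ∈ N0 ∧ x 2 = 0 ∧ x 5 = 0}

def M : Set (EuclideanSpace ℝ (Fin 6)) := {x | x ∈ N1 ∧ x 0 = x 3 ∧ x 1 = x 4}

theorem result :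
    (∀ p ∈ N0, ∃ s : EuclideanSpace ℝ (Fin 6) ≃ₗᵢ[ℝ] EuclideanSpace ℝ (Fin 6),
      s '' N0 = N0 ∧ s p = p ∧ ∀ v ∈ tang N0 p, s v = -v) ∧
    (∀ γ, IsGeo N1 γ → IsGeo N0 γ) ∧ Taut N1 M ∧ ¬ Taut N0 M :=
  Pool.Agent.H.MP_106964_gt.main

end Pool.Agent.Results.MP_106964_gt.No
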